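import Mathlib
import Pool.Agent.Helper997.TreeMetric

/-!
The classes `[h, 2, p]` of intersection graphs of paths in trees are not monotone in `p`.
-/

namespace Pool.Agent.Results.MP_ebe746_co.Main

open Pool.Agent.Helper997.TreeMetric

/-- `S` is an `(h, s, p)`-subtree representation of `G` on the host tree `T`: the tree `T` has
maximum degree at most `h`, every `S v` is (the vertex set of) a subtree of `T` of maximum degree at
most `s`, and distinct `u`, `v` are adjacent iff `S u` and `S v` have at least `p` vertices in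
common. -/
structure IsSubtreeRep {V W : Type} (h s : ℕ∞) (p : ℕ) (G : SimpleGraph V) (T : SimpleGraph W)
    (S : V → Set W) : Prop where
  isTree : T.IsTree
  host_degree : ∀ w, (T.neighborSet w).encard ≤ h
  subtree : ∀ v, (T.induce (S v)).Connected
  subtree_degree : ∀ v, ∀ w ∈ S v, (T.neighborSet w ∩ S v).encard ≤ s
  adj_iff : ∀ u v, u ≠ v → (G.Adj u v ↔ (p : ℕ∞) ≤ (S u ∩ S v).encard)

/-- The class `[h, s, p]`: graphs with an `(h, s, p)`-subtree representation on a finite host
tree. -/
def InClass {V : Type} (h s : ℕ∞) (p : ℕ) (G : SimpleGraph V) : Prop :=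
  ∃ (W : Type) (_ : Finite W) (T : SimpleGraph W) (S : V → Set W), IsSubtreeRep h s p G T S

/-! ### The host tree of the positive part -/

/-- Vertices of the host: ten core vertices (`0` the centre, `1, 2, 3` its neighbours and
`4, ..., 9` their children) and twelve legs with 68 vertices each. -/
abbrev W₀ := Fin 10 ⊕ (Fin 12 × Fin 68)

/-- Parent of a core vertex. -/
def cpar : Fin 10 → Fin 10 := ![0, 0, 0, 0, 1, 1, 2, 2, 3, 3]

/-- Depth of a core vertex. -/
def crank : Fin 10 → ℕ := ![0, 1, 1, 1, 2, 2, 2, 2, 2, 2]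

/-- The core vertex at which a leg is attached. -/
def zof : Fin 12 → Fin 10 := ![4, 4, 5, 5, 6, 6, 7, 7, 8, 8, 9, 9]

/-- The parent function of the host. -/
def par : W₀ → W₀
  | .inl c => .inl (cpar c)
  | .inr (l, n) => if n.val = 0 then .inl (zof l) else .inr (l, ⟨n.val - 1, by omega⟩)

/-- The depth in the host. -/
def rank : W₀ → ℕ
  | .inl c => crank c
  | .inr (_, n) => 3 + n.val

/-- The root. -/
def root : W₀ := .inl 0

lemma crank_zof : ∀ l, crank (zof l) = 2 := by decide

lemma crank_cpar : ∀ c, c ≠ 0 → crank (cpar c) < crank c := by decide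

lemma rank_par (w : W₀) (hw : w ≠ root) : rank (par w) < rank w := by
  rcases w with c | ⟨l, n⟩
  · have : c ≠ 0 := fun e => hw (by rw [e]; rfl)
    exact crank_cpar c this
  · by_cases hn : n.val = 0
    · simp only [par, rank, if_pos hn]
      have := crank_zof l
      omega
    · simp only [par, rank, if_neg hn]
      omega

lemma par_root : par root = root := rfl

lemma par_ne (w : W₀) (hw : w ≠ root) : par w ≠ w := by
  intro e
  have := rank_par w hw
  rw [e] at this
  omega

/-- The host tree. -/
def T₀ : SimpleGraph W₀ := SimpleGraph.fromRel (fun u v => par u = v)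

lemma adj_iff (u v : W₀) : T₀.Adj u v ↔ u ≠ v ∧ (par u = v ∨ par v = u) := Iff.rfl

lemma adj_par (w : W₀) (hw : w ≠ root) : T₀.Adj w (par w) :=
  ⟨(par_ne w hw).symm, Or.inl rfl⟩

lemma conn_of_top {S : Set W₀} {r : W₀} (hr : r ∈ S)
    (hS : ∀ v ∈ S, v ≠ r → par v ∈ S ∧ v ≠ root) : (T₀.induce S).Connected := by
  have key : ∀ (n : ℕ) (v : W₀) (hv : v ∈ S), rank v = n →
      (T₀.induce S).Reachable ⟨v, hv⟩ ⟨r, hr⟩ := by
    intro n
    induction n using Nat.strong_induction_on with
    | _ n ih =>
      intro v hv hn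
      by_cases hvr : v = r
      · subst hvr
        exact SimpleGraph.Reachable.refl _
      · obtain ⟨h1, h2⟩ := hS v hv hvr
        have h3 := rank_par v h2
        have h4 := ih (rank (par v)) (by omega) (par v) h1 rfl
        have h5 : (T₀.induce S).Adj ⟨v, hv⟩ ⟨par v, h1⟩ := adj_par v h2
        exact h5.reachable.trans h4
  have : Nonempty S := ⟨⟨r, hr⟩⟩
  exact SimpleGraph.Connected.mk (fun u v =>
    (key _ u.1 u.2 rfl).trans (key _ v.1 v.2 rfl).symm)

lemma T₀_connected : T₀.Connected := by
  have key : ∀ (n : ℕ) (v : W₀), rank v = n → T₀.Reachable v root := by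
    intro n
    induction n using Nat.strong_induction_on with
    | _ n ih =>
      intro v hn
      by_cases hvr : v = root
      · subst hvr
        exact SimpleGraph.Reachable.refl _
      · have h3 := rank_par v hvr
        exact (adj_par v hvr).reachable.trans (ih (rank (par v)) (by omega) (par v) rfl)
  have : Nonempty W₀ := ⟨root⟩
  exact SimpleGraph.Connected.mk (fun u v => (key _ u rfl).trans (key _ v rfl).symm)

lemma T₀_isTree : T₀.IsTree := by
  rw [SimpleGraph.isTree_iff_connected_and_card]
  refine ⟨T₀_connected, ?_⟩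
  have e : {w : W₀ // w ≠ root} ≃ T₀.edgeSet := by
    refine Equiv.ofBijective (fun w => ⟨s(w.1, par w.1), adj_par w.1 w.2⟩) ⟨?_, ?_⟩
    · rintro ⟨v, hv⟩ ⟨w, hw⟩ h
      have h' : s(v, par v) = s(w, par w) := congrArg Subtype.val h
      rw [Sym2.eq_iff] at h'
      rcases h' with ⟨h1, _⟩ | ⟨h1, h2⟩
      · exact Subtype.ext h1
      · exfalso
        have r1 := rank_par v hv
        have r2 := rank_par w hw
        rw [h2] at r1
        rw [← h1] at r2
        omega
    · rintro ⟨e, he⟩
      induction e using Sym2.ind with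
      | _ u v =>
        rw [SimpleGraph.mem_edgeSet] at he
        obtain ⟨hne, h | h⟩ := he
        · refine ⟨⟨u, ?_⟩, ?_⟩
          · rintro rfl
            rw [par_root] at h
            exact hne h
          · apply Subtype.ext
            change s(u, par u) = s(u, v)
            rw [h]
        · refine ⟨⟨v, ?_⟩, ?_⟩
          · rintro rfl
            rw [par_root] at h
            exact hne h.symm
          · apply Subtype.ext
            change s(v, par v) = s(u, v)
            rw [h]
            exact Sym2.eq_swap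
  rw [← Nat.card_congr e]
  have h1 : Nat.card {w : W₀ // w ≠ root} = Fintype.card W₀ - 1 := by
    rw [Nat.card_eq_fintype_card]
    exact Set.card_ne_eq root
  rw [h1, Nat.card_eq_fintype_card]
  have : 0 < Fintype.card W₀ := Fintype.card_pos_iff.mpr ⟨root⟩
  omega

/-! ### The paths -/

/-- The middle vertex of the branch of a leg. -/
def yof : Fin 12 → Fin 10 := ![1, 1, 1, 1, 2, 2, 2, 2, 3, 3, 3, 3]

/-- The core part of the path between two legs. -/
def corePath (a b : Fin 12) : Finset (Fin 10) :=
  if zof a = zof b then {zof a}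
  else if yof a = yof b then {zof a, yof a, zof b}
  else {zof a, yof a, 0, yof b, zof b}

/-- The highest vertex of the path between two legs. -/
def coreTop (a b : Fin 12) : Fin 10 :=
  if zof a = zof b then zof a else if yof a = yof b then yof a else 0

lemma corePath_symm : ∀ a b, corePath a b = corePath b a := by decide

lemma coreTop_mem : ∀ a b, coreTop a b ∈ corePath a b := by decide

lemma corePath_down : ∀ a b, ∀ c ∈ corePath a b, c ≠ coreTop a b →
    cpar c ∈ corePath a b ∧ c ≠ 0 := by decide +kernel

lemma zof_mem : ∀ a b, zof a ∈ corePath a b ∧ zof b ∈ corePath a b := by decide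

/-- The path between the ends of two legs (for `a = b`: the leg `a` with its attaching vertex). -/
def pathSet (a b : Fin 12) : Set W₀ :=
  {w | match w with
    | .inl c => c ∈ corePath a b
    | .inr (l, _) => l = a ∨ l = b}

lemma mem_inl {a b : Fin 12} {c : Fin 10} :
    (Sum.inl c : W₀) ∈ pathSet a b ↔ c ∈ corePath a b := Iff.rfl

lemma mem_inr {a b l : Fin 12} {n : Fin 68} :
    (Sum.inr (l, n) : W₀) ∈ pathSet a b ↔ l = a ∨ l = b := Iff.rfl

lemma pathSet_symm (a b : Fin 12) : pathSet a b = pathSet b a := by
  ext w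
  rcases w with c | ⟨l, n⟩
  · rw [mem_inl, mem_inl, corePath_symm]
  · rw [mem_inr, mem_inr, or_comm]

/-- The `i`-th marker of a leg: four consecutive vertices. -/
def marker (l : Fin 12) (i : Fin 17) : Set W₀ :=
  {w | match w with
    | .inl _ => False
    | .inr (l', n) => l' = l ∧ n.val / 4 = i.val}

lemma mem_marker {l l' : Fin 12} {i : Fin 17} {n : Fin 68} :
    (Sum.inr (l', n) : W₀) ∈ marker l i ↔ l' = l ∧ n.val / 4 = i.val := Iff.rfl

lemma pathSet_connected (a b : Fin 12) : (T₀.induce (pathSet a b)).Connected := by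
  apply conn_of_top (r := .inl (coreTop a b))
  · exact coreTop_mem a b
  · intro v hv hvr
    rcases v with c | ⟨l, n⟩
    · rw [mem_inl] at hv
      have hc : c ≠ coreTop a b := fun e => hvr (by rw [e])
      obtain ⟨h1, h2⟩ := corePath_down a b c hv hc
      refine ⟨h1, ?_⟩
      intro e
      exact h2 (Sum.inl_injective e)
    · refine ⟨?_, by intro e; cases e⟩
      rw [mem_inr] at hv
      by_cases hn : n.val = 0
      · simp only [par, if_pos hn]
        rw [mem_inl]
        rcases hv with rfl | rfl
        · exact (zof_mem l b).1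
        · exact (zof_mem a l).2
      · simp only [par, if_neg hn]
        exact hv

lemma marker_connected (l : Fin 12) (i : Fin 17) : (T₀.induce (marker l i)).Connected := by
  apply conn_of_top (r := .inr (l, ⟨4 * i.val, by omega⟩))
  · rw [mem_marker]
    refine ⟨rfl, ?_⟩
    simp only
    omega
  · intro v hv hvr
    rcases v with c | ⟨l', n⟩
    · exact absurd hv (by intro e; exact e)
    · refine ⟨?_, by intro e; cases e⟩
      rw [mem_marker] at hv
      obtain ⟨rfl, hn⟩ := hv
      have h4 : n.val ≠ 4 * i.val := by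
        intro e
        apply hvr
        congr 2
        exact Fin.ext e
      have h0 : n.val ≠ 0 := by omega
      simp only [par, if_neg h0]
      rw [mem_marker]
      refine ⟨rfl, ?_⟩
      simp only
      omega

/-! ### Degrees -/

/-- Neighbours of a leg vertex. -/
lemma nbr_inr (l : Fin 12) (n : Fin 68) : ∃ u v, T₀.neighborSet (.inr (l, n)) ⊆ {u, v} := by
  refine ⟨par (.inr (l, n)), .inr (l, if h : n.val + 1 < 68 then ⟨n.val + 1, h⟩ else n), ?_⟩
  intro w hw
  obtain ⟨_, h | h⟩ := hw
  · left
    exact h.symm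
  · right
    rcases w with c | ⟨l', m⟩
    · cases h
    · by_cases hm : m.val = 0
      · simp only [par, if_pos hm] at h
        cases h
      · simp only [par, if_neg hm] at h
        have h' := Sum.inr_injective h
        rw [Prod.mk.injEq] at h'
        obtain ⟨rfl, h2⟩ := h'
        have h3 : m.val - 1 = n.val := congrArg Fin.val h2
        have hlt : n.val + 1 < 68 := by have := m.isLt; omega
        rw [Set.mem_singleton_iff, dif_pos hlt]
        congr 2
        apply Fin.ext
        simp only
        omega

lemma encard_inr (l : Fin 12) (n : Fin 68) (S : Set W₀) :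
    (T₀.neighborSet (.inr (l, n)) ∩ S).encard ≤ 2 := by
  obtain ⟨u, v, h⟩ := nbr_inr l n
  refine (Set.encard_le_encard (Set.inter_subset_left.trans h)).trans ?_
  refine (Set.encard_insert_le _ _).trans ?_
  rw [Set.encard_singleton]
  norm_num

/-- A finite set containing the neighbours of a core vertex. -/
def nbCore (c : Fin 10) (A : Finset (Fin 10)) (B : Finset (Fin 12)) : Finset W₀ :=
  ((A.filter (fun c' => c' ≠ c ∧ (cpar c = c' ∨ cpar c' = c))).image (fun c' => Sum.inl c')) ∪
    ((B.filter (fun l => zof l = c)).image (fun l => Sum.inr (l, 0)))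

lemma card_nbCore_le (c : Fin 10) (A : Finset (Fin 10)) (B : Finset (Fin 12)) :
    (nbCore c A B).card ≤ (A.filter (fun c' => c' ≠ c ∧ (cpar c = c' ∨ cpar c' = c))).card +
      (B.filter (fun l => zof l = c)).card :=
  (Finset.card_union_le _ _).trans (add_le_add Finset.card_image_le Finset.card_image_le)

lemma nbr_inl (c : Fin 10) (S : Set W₀) (A : Finset (Fin 10)) (B : Finset (Fin 12))
    (hA : ∀ c', (Sum.inl c' : W₀) ∈ S → c' ∈ A) (hB : ∀ l n, (Sum.inr (l, n) : W₀) ∈ S → l ∈ B) :
    T₀.neighborSet (.inl c) ∩ S ⊆ (nbCore c A B : Set W₀) := by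
  rintro w ⟨⟨hne, h⟩, hwS⟩
  rw [Finset.mem_coe, nbCore, Finset.mem_union]
  rcases w with c' | ⟨l, n⟩
  · left
    rw [Finset.mem_image]
    refine ⟨c', ?_, rfl⟩
    rw [Finset.mem_filter]
    refine ⟨hA c' hwS, fun e => hne (by rw [e]), ?_⟩
    rcases h with h | h
    · left
      exact Sum.inl_injective h
    · right
      exact Sum.inl_injective h
  · right
    rw [Finset.mem_image]
    rcases h with h | h
    · cases h
    · by_cases hn : n.val = 0
      · simp only [par, if_pos hn] at h
        refine ⟨l, ?_, ?_⟩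
        · rw [Finset.mem_filter]
          exact ⟨hB l n hwS, Sum.inl_injective h⟩
        · congr 2
          exact Fin.ext hn.symm
      · simp only [par, if_neg hn] at h
        cases h

lemma deg_path : ∀ a b : Fin 12, ∀ c : Fin 10,
    ((corePath a b).filter (fun c' => c' ≠ c ∧ (cpar c = c' ∨ cpar c' = c))).card +
      (({a, b} : Finset (Fin 12)).filter (fun l => zof l = c)).card ≤ 2 ∨ c ∉ corePath a b := by
  decide +kernel

lemma deg_host : ∀ c : Fin 10,
    ((Finset.univ).filter (fun c' => c' ≠ c ∧ (cpar c = c' ∨ cpar c' = c))).card +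
      ((Finset.univ).filter (fun l => zof l = c)).card ≤ 3 := by
  decide +kernel

lemma host_degree (w : W₀) : (T₀.neighborSet w).encard ≤ 3 := by
  rcases w with c | ⟨l, n⟩
  · have h1 := nbr_inl c Set.univ Finset.univ Finset.univ (fun _ _ => Finset.mem_univ _)
      (fun _ _ _ => Finset.mem_univ _)
    rw [Set.inter_univ] at h1
    refine (Set.encard_le_encard h1).trans ?_
    rw [Set.encard_coe_eq_coe_finsetCard]
    exact_mod_cast (card_nbCore_le _ _ _).trans (deg_host c)
  · have h1 := encard_inr l n Set.univ
    rw [Set.inter_univ] at h1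
    exact h1.trans (by norm_num)

lemma path_degree (a b : Fin 12) (w : W₀) (hw : w ∈ pathSet a b) :
    (T₀.neighborSet w ∩ pathSet a b).encard ≤ 2 := by
  rcases w with c | ⟨l, n⟩
  · have h1 := nbr_inl c (pathSet a b) (corePath a b) {a, b} (fun _ h => h)
      (fun l n h => by
        rw [mem_inr] at h
        rw [Finset.mem_insert, Finset.mem_singleton]
        exact h)
    refine (Set.encard_le_encard h1).trans ?_
    rw [Set.encard_coe_eq_coe_finsetCard]
    rw [mem_inl] at hw
    rcases deg_path a b c with h2 | h2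
    · exact_mod_cast (card_nbCore_le _ _ _).trans h2
    · exact absurd hw h2
  · exact encard_inr l n _

lemma marker_degree (l : Fin 12) (i : Fin 17) (w : W₀) (hw : w ∈ marker l i) :
    (T₀.neighborSet w ∩ marker l i).encard ≤ 2 := by
  rcases w with c | ⟨l', n⟩
  · exact absurd hw (by intro e; exact e)
  · exact encard_inr l' n _

/-! ### Intersections in the host -/

lemma marker_card (l : Fin 12) (i : Fin 17) : 4 ≤ (marker l i).encard := by
  let f : Fin 4 → W₀ := fun k => .inr (l, ⟨4 * i.val + k.val, by omega⟩)
  have hinj : Function.Injective f := by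
    intro k k' hk
    have h1 := Sum.inr_injective hk
    rw [Prod.mk.injEq] at h1
    have h2 : 4 * i.val + k.val = 4 * i.val + k'.val := congrArg Fin.val h1.2
    apply Fin.ext
    omega
  have hsub : Set.range f ⊆ marker l i := by
    rintro w ⟨k, rfl⟩
    simp only [f]
    rw [mem_marker]
    refine ⟨rfl, ?_⟩
    simp only
    omega
  refine le_trans ?_ (Set.encard_le_encard hsub)
  rw [← Set.image_univ, hinj.encard_image, Set.encard_univ, ENat.card_eq_coe_fintype_card]
  simp

lemma marker_subset (l b : Fin 12) (i : Fin 17) : marker l i ⊆ pathSet l b := by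
  intro w hw
  rcases w with c | ⟨l', n⟩
  · exact absurd hw (by intro e; exact e)
  · rw [mem_marker] at hw
    rw [mem_inr]
    exact Or.inl hw.1

lemma big_path_marker (l b : Fin 12) (i : Fin 17) : 4 ≤ (pathSet l b ∩ marker l i).encard := by
  rw [Set.inter_eq_right.mpr (marker_subset l b i)]
  exact marker_card l i

lemma big_path_path (c e e' : Fin 12) : 4 ≤ (pathSet c e ∩ pathSet c e').encard := by
  refine (marker_card c 0).trans (Set.encard_le_encard ?_)
  exact Set.subset_inter (marker_subset c e 0) (marker_subset c e' 0)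

lemma marker_marker (l : Fin 12) {i j : Fin 17} (hij : i ≠ j) : marker l i ∩ marker l j = ∅ := by
  rw [Set.eq_empty_iff_forall_notMem]
  rintro w ⟨h1, h2⟩
  rcases w with c | ⟨l', n⟩
  · exact absurd h1 (by intro e; exact e)
  · rw [mem_marker] at h1 h2
    apply hij
    apply Fin.ext
    rw [← h1.2, ← h2.2]

lemma path_marker {c e l : Fin 12} (hc : c ≠ l) (he : e ≠ l) (i : Fin 17) :
    pathSet c e ∩ marker l i = ∅ := by
  rw [Set.eq_empty_iff_forall_notMem]
  rintro w ⟨h1, h2⟩
  rcases w with c' | ⟨l', n⟩
  · exact absurd h2 (by intro e; exact e)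
  · rw [mem_marker] at h2
    rw [mem_inr] at h1
    rcases h1 with h1 | h1
    · exact hc (h1.symm.trans h2.1)
    · exact he (h1.symm.trans h2.1)

lemma path_path {a b c e : Fin 12} (hac : a ≠ c) (hae : a ≠ e) (hbc : b ≠ c) (hbe : b ≠ e) :
    (pathSet a b ∩ pathSet c e).encard = ((corePath a b ∩ corePath c e).card : ℕ∞) := by
  have h1 : pathSet a b ∩ pathSet c e =
      Sum.inl '' ((corePath a b ∩ corePath c e : Finset (Fin 10)) : Set (Fin 10)) := by
    ext w
    constructor
    · rintro ⟨hw1, hw2⟩
      rcases w with c' | ⟨l, n⟩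
      · refine ⟨c', ?_, rfl⟩
        rw [Finset.mem_coe, Finset.mem_inter]
        exact ⟨hw1, hw2⟩
      · rw [mem_inr] at hw1 hw2
        rcases hw1 with rfl | rfl <;> rcases hw2 with h | h
        · exact absurd h hac
        · exact absurd h hae
        · exact absurd h hbc
        · exact absurd h hbe
    · rintro ⟨c', hc', rfl⟩
      rw [Finset.mem_coe, Finset.mem_inter] at hc'
      exact hc'
  rw [h1, Sum.inl_injective.encard_image, Set.encard_coe_eq_coe_finsetCard]

/-! ### The graph -/

/-- The vertices of the graph: ordered pairs of legs and the markers. -/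
abbrev V₀ := (Fin 12 × Fin 12) ⊕ (Fin 12 × Fin 17)

/-- The family of paths. -/
def fam : V₀ → Set W₀
  | .inl (a, b) => pathSet a b
  | .inr (l, i) => marker l i

/-- The intersection graph of the family: at least four common vertices. -/
def G₀ : SimpleGraph V₀ where
  Adj u v := u ≠ v ∧ 4 ≤ (fam u ∩ fam v).encard
  symm := ⟨fun u v h => ⟨h.1.symm, by rw [Set.inter_comm]; exact h.2⟩⟩
  loopless := ⟨fun _ h => h.1 rfl⟩

theorem G₀_pos {h : ℕ∞} (hh : 3 ≤ h) : InClass h 2 4 G₀ := by
  refine ⟨W₀, inferInstance, T₀, fam, T₀_isTree, fun w => (host_degree w).trans hh, ?_, ?_, ?_⟩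
  · rintro (⟨a, b⟩ | ⟨l, i⟩)
    · exact pathSet_connected a b
    · exact marker_connected l i
  · rintro (⟨a, b⟩ | ⟨l, i⟩) w hw
    · exact path_degree a b w hw
    · exact marker_degree l i w hw
  · intro u v huv
    constructor
    · intro hadj
      exact hadj.2
    · intro hle
      exact ⟨huv, hle⟩

lemma two_others : ∀ l : Fin 12, ∃ c e, c ≠ l ∧ e ≠ l ∧ c ≠ e := by decide

/-- Impossibility of a representation with threshold 5. -/
theorem G₀_neg {h : ℕ∞} : ¬ InClass h 2 5 G₀ := by
  rintro ⟨W, _, T, S, hrep⟩
  have hT := hrep.isTree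
  have htd := td_of_tree hT
  have hseg : ∀ v, ∃ x y, S v = Seg T.dist x y := fun v =>
    seg_of_subtree hT (hrep.subtree v) (hrep.subtree_degree v)
  have hcvx : ∀ v, Cvx T.dist (S v) := fun v x hx y hy z hz =>
    convex_of_connected hT (hrep.subtree v) hx hy hz
  have hbig : ∀ u v, u ≠ v → (5 ≤ (S u ∩ S v).encard ↔ 4 ≤ (fam u ∩ fam v).encard) := by
    intro u v huv
    have h1 := hrep.adj_iff u v huv
    constructor
    · intro h2
      exact (h1.mpr h2).2
    · intro h2
      exact h1.mp ⟨huv, h2⟩
  let P : Fin 12 → Fin 12 → Set W := fun a b => S (.inl (min a b, max a b))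
  let τ : Fin 12 → Fin 17 → Set W := fun l i => S (.inr (l, i))
  have hfam : ∀ a b, fam (.inl (min a b, max a b)) = pathSet a b := by
    intro a b
    rcases le_total a b with hab | hab
    · rw [min_eq_left hab, max_eq_right hab]
      rfl
    · rw [min_eq_right hab, max_eq_left hab, pathSet_symm]
      rfl
  have hsymm : ∀ a b, P a b = P b a := by
    intro a b
    change S (.inl (min a b, max a b)) = S (.inl (min b a, max b a))
    rw [min_comm, max_comm]
  have hPP : ∀ a b c e, (min a b, max a b) ≠ (min c e, max c e) →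
      (5 ≤ (P a b ∩ P c e).encard ↔ 4 ≤ (pathSet a b ∩ pathSet c e).encard) := by
    intro a b c e hne
    have := hbig (.inl (min a b, max a b)) (.inl (min c e, max c e))
      (fun e => hne (Sum.inl_injective e))
    rw [hfam, hfam] at this
    exact this
  have hPτ : ∀ a b l i, (5 ≤ (P a b ∩ τ l i).encard ↔ 4 ≤ (pathSet a b ∩ marker l i).encard) := by
    intro a b l i
    have := hbig (.inl (min a b, max a b)) (.inr (l, i)) (by intro e; cases e)
    rw [hfam] at this
    exact this
  have hmeet : ∀ c e e', c ≠ e → c ≠ e' → (P c e ∩ P c e').Nonempty := by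
    intro c e e' _ _
    by_cases heq : (min c e, max c e) = (min c e', max c e')
    · have : P c e = P c e' := by
        change S (.inl (min c e, max c e)) = S (.inl (min c e', max c e'))
        rw [heq]
      rw [← this, Set.inter_self]
      obtain ⟨⟨x, hx⟩⟩ := (hrep.subtree (.inl (min c e, max c e))).nonempty
      exact ⟨x, hx⟩
    · have h1 := (hPP c e c e' heq).mpr (big_path_path c e e')
      rw [← Set.encard_pos]
      exact lt_of_lt_of_le (by norm_num) h1
  have hanchor : ∀ l, ∃ a a', T.dist a a' = 1 ∧ (∀ b, b ≠ l → a ∈ P l b ∧ a' ∈ P l b) ∧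
      ∀ c e, c ≠ l → e ≠ l → c ≠ e → ∀ u ∈ P c e, T.dist a u = T.dist a' u + 1 := by
    intro l
    obtain ⟨b₀, hb₀⟩ : ∃ b₀ : Fin 12, b₀ ≠ l := by
      revert l
      decide
    obtain ⟨x₀, y₀, hxy⟩ := hseg (.inl (min l b₀, max l b₀))
    apply anchor htd l P hsymm (fun a b => hcvx _) b₀ hb₀ hxy hmeet (τ l) (fun i => hcvx _)
    · intro i b _
      exact (hPτ l b l i).mpr (big_path_marker l b i)
    · intro i j hij
      have := hbig (.inr (l, i)) (.inr (l, j))
        (fun e => hij (congrArg Prod.snd (Sum.inr_injective e)))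
      change ¬ 5 ≤ (S (.inr (l, i)) ∩ S (.inr (l, j))).encard
      rw [this]
      change ¬ 4 ≤ (marker l i ∩ marker l j).encard
      rw [marker_marker l hij]
      simp
    · intro c e i hc he _
      rw [hPτ, path_marker hc he]
      simp
    · exact two_others l
  choose s s' h1 h2 h3 using hanchor
  have hinter : ∀ {a b c e : Fin 12}, a ≠ b → a ≠ c → a ≠ e → b ≠ c → b ≠ e → c ≠ e →
      P a b ∩ P c e = Seg T.dist (s a) (s b) ∩ Seg T.dist (s c) (s e) :=
    fun hab hac hae hbc hbe hce =>
      anchored_inter htd P hsymm (fun a b => hseg _) s s' h1 h2 h3 hab hac hae hbc hbe hce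
  have hne : ∀ {a b c e : Fin 12}, a ≠ c → a ≠ e → (min a b, max a b) ≠ (min c e, max c e) := by
    decide +kernel
  have hfar : ∀ a b c e : Fin 12, a ≠ b → a ≠ c → a ≠ e → b ≠ c → b ≠ e → c ≠ e →
      4 ≤ (corePath a b ∩ corePath c e).card → Far T.dist (s a) (s b) (s c) (s e) := by
    intro a b c e hab hac hae hbc hbe hce hcard
    apply seg_inter_big htd
    rw [← hinter hab hac hae hbc hbe hce, hPP a b c e (hne hac hae), path_path hac hae hbc hbe]
    exact_mod_cast hcard
  have hnear : ∀ a b c e : Fin 12, a ≠ b → a ≠ c → a ≠ e → b ≠ c → b ≠ e → c ≠ e →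
      (corePath a b ∩ corePath c e).card < 4 → Near T.dist (s a) (s b) (s c) (s e) := by
    intro a b c e hab hac hae hbc hbe hce hcard
    apply seg_inter_small htd
    rw [← hinter hab hac hae hbc hbe hce, hPP a b c e (hne hac hae), path_path hac hae hbc hbe]
    intro hle
    have : 4 ≤ (corePath a b ∩ corePath c e).card := by exact_mod_cast hle
    omega
  have E1 := core_step htd (a := s 0) (a' := s 1) (b := s 2) (b' := s 3) (u := s 4) (v := s 6)
    (by apply hfar <;> decide) (by apply hfar <;> decide) (by apply hfar <;> decide)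
    (by apply hfar <;> decide) (by apply hnear <;> decide) (by apply hnear <;> decide)
    (by apply hnear <;> decide)
  have E2 := core_step htd (a := s 8) (a' := s 9) (b := s 10) (b' := s 11) (u := s 4) (v := s 6)
    (by apply hfar <;> decide) (by apply hfar <;> decide) (by apply hfar <;> decide)
    (by apply hfar <;> decide) (by apply hnear <;> decide) (by apply hnear <;> decide)
    (by apply hnear <;> decide)
  have E3 := core_step htd (a := s 0) (a' := s 1) (b := s 2) (b' := s 3) (u := s 8) (v := s 10)
    (by apply hfar <;> decide) (by apply hfar <;> decide) (by apply hfar <;> decide)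
    (by apply hfar <;> decide) (by apply hnear <;> decide) (by apply hnear <;> decide)
    (by apply hnear <;> decide)
  exact core_final htd E1 E2 E3

/-- For every `h ≥ 3` (including `h = ∞`) the class `[h, 2, 4]` is not contained in the class
`[h, 2, 5]`. -/
theorem result (h : ℕ∞) (hh : 3 ≤ h) :
    ∃ (V : Type) (_ : Fintype V) (G : SimpleGraph V), InClass h 2 4 G ∧ ¬ InClass h 2 5 G :=
  ⟨V₀, inferInstance, G₀, G₀_pos hh, G₀_neg⟩

end Pool.Agent.Results.MP_ebe746_co.Main
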